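import Pool.Agent.Y391.CB.Chi

/-! CB3-CHI: the sum over the values of the variable of the axis, main part (project of helper472). -/

set_option autoImplicit false

namespace Pool.Agent.Y391.CB

open Filter Topology Metric Set MeasureTheory Pool.Agent.W711.HT Pool.Agent.W588.HT
open Pool.Agent.Y472 (wE)
open scoped Real Interval

/-- the position of the vertical side -/
noncomputable def rN (R : ℝ) (N : ℕ) : ℝ := (2 * (⌊R / 4 * N / (2 * π)⌋₊ : ℝ) + 1) * π / N

theorem rN_close {R : ℝ} (hR : 0 < R) {N : ℕ} (hN : 1 ≤ N) : |rN R N - R / 4| ≤ π / N := by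
  have hN' : (0 : ℝ) < N := by exact_mod_cast hN
  have hpi := Real.pi_pos
  have h1 := Nat.floor_le (a := R / 4 * N / (2 * π)) (by positivity)
  have h2 := Nat.lt_floor_add_one (R / 4 * N / (2 * π))
  unfold rN
  generalize (⌊R / 4 * N / (2 * π)⌋₊ : ℝ) = P at *
  rw [le_div_iff₀ (by positivity)] at h1
  rw [div_lt_iff₀ (by positivity)] at h2
  rw [abs_le]
  constructor
  · rw [neg_le_sub_iff_le_add, ← add_div, le_div_iff₀ hN']
    nlinarith
  · rw [sub_le_iff_le_add, div_le_iff₀ hN']
    have : (π / N + R / 4) * N = π + R / 4 * N := by field_simp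
    rw [this]
    nlinarith

theorem rN_ev {R : ℝ} (hR : 0 < R) {δ : ℝ} (hδ : 0 < δ) : ∀ᶠ N : ℕ in atTop, |rN R N - R / 4| < δ := by
  have h1 : Tendsto (fun N : ℕ => π / (N : ℝ)) atTop (𝓝 0) := tendsto_const_div_atTop_nhds_zero_nat _
  filter_upwards [h1.eventually_lt_const hδ, eventually_ge_atTop 1] with N h2 h3
  exact (rN_close hR h3).trans_lt h2

/-- the exponential on the vertical side -/
theorem exp_side {R : ℝ} {N : ℕ} (hN : 1 ≤ N) {σ : ℝ} (hσ : σ = rN R N ∨ σ = -rN R N) (y : ℝ) :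
    Complex.exp (Complex.I * N * (σ + y * Complex.I)) = -Complex.exp (-(N * y : ℝ)) := by
  have hN' : (N : ℂ) ≠ 0 := by exact_mod_cast (by omega : N ≠ 0)
  obtain ⟨P, hP⟩ : ∃ P : ℕ, P = ⌊R / 4 * N / (2 * π)⌋₊ := ⟨_, rfl⟩
  have key : ∀ k : ℤ, Complex.exp (Complex.I * π * (2 * k + 1)) = -1 := by
    intro k
    have h1 : Complex.I * π * (2 * k + 1) = k * (2 * π * Complex.I) + π * Complex.I := by ring
    rw [h1, Complex.exp_add, Complex.exp_int_mul_two_pi_mul_I, Complex.exp_pi_mul_I, one_mul]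
  have hI : Complex.I * Complex.I = -1 := Complex.I_mul_I
  rcases hσ with h | h
  · have h1 : Complex.I * N * (σ + y * Complex.I) = Complex.I * π * (2 * (P : ℤ) + 1) +
        (-(N * y : ℝ) : ℂ) := by
      rw [h, rN, ← hP]
      push_cast
      field_simp
      linear_combination (N * y : ℂ) * hI
    rw [h1, Complex.exp_add, key]
    ring
  · have h1 : Complex.I * N * (σ + y * Complex.I) = Complex.I * π * (2 * ((-(P : ℤ) - 1 : ℤ) : ℂ) + 1) +
        (-(N * y : ℝ) : ℂ) := by
      rw [h, rN, ← hP]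
      push_cast
      field_simp
      linear_combination (N * y : ℂ) * hI
    rw [h1, Complex.exp_add, key]
    ring

theorem pN_side {R : ℝ} {N : ℕ} (hN : 1 ≤ N) {σ : ℝ} (hσ : σ = rN R N ∨ σ = -rN R N) {y H : ℝ}
    (hy0 : 0 ≤ y) (hy : y ≤ H) : ‖pN N (σ + y * Complex.I)‖ ≤ Real.exp H := by
  unfold pN
  rw [exp_side hN hσ, sub_neg_eq_add, norm_div, norm_pow]
  have h1 : (1 : ℝ) ≤ ‖(1 : ℂ) + Complex.exp (-(N * y : ℝ))‖ := by
    have h2 : (1 : ℂ) + Complex.exp (-(N * y : ℝ)) = ((1 + Real.exp (-(N * y)) : ℝ) : ℂ) := by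
      push_cast
      rfl
    rw [h2, Complex.norm_real, Real.norm_eq_abs, abs_of_pos (by positivity)]
    have := Real.exp_pos (-(N * y))
    linarith
  have h3 : ‖Complex.sin (σ + y * Complex.I)‖ ≤ Real.exp H := by
    refine (Pool.Agent.W85.HT.norm_sin_le _).trans (Real.exp_le_exp.2 ?_)
    have : ((σ : ℂ) + y * Complex.I).im = y := by simp
    rw [this, abs_of_nonneg hy0]
    exact hy
  refine (div_le_self (norm_nonneg _) ?_).trans h3
  exact one_le_pow₀ h1

theorem tend {R : ℝ} (hR : 0 < R) {X : ℕ → ℂ → ℂ} {G : ℂ → ℂ} (hX : ∀ N, Differentiable ℂ (X N))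
    (hXe : ∀ N z, X N (-z) = X N z) (hG : DifferentiableOn ℂ G (Rc R R)) (hMW : MW X G (Rc R R))
    (m : ℤ) {z : ℂ} (hz : z ∈ Rc (R / 4) (R / 4)) (hz0 : 0 < z.im) (hS : SAD (2 * m) G (R / 4) z)
    {c : ℝ} (hc : 0 < c) (hline : ∀ x : ℝ, |x| ≤ R / 3 → (qq (2 * m) G (x + z.im * Complex.I)).re ≤
      (qq (2 * m) G z).re - c / 2 * (x - z.re) ^ 2) :
    Tendsto (fun N : ℕ => Real.log ‖∑ p ∈ Finset.Icc (-(⌊R / 4 * N / (2 * π)⌋₊ : ℤ))
      ⌊R / 4 * N / (2 * π)⌋₊, deriv (fun χ => wE N m χ * X N χ) (2 * π * p / N)‖ / N) atTop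
      (𝓝 (qq (2 * m) G z).re) := by
  have hopen : IsOpen (Rc R R) := Pool.Agent.W293.HT.isOpen_Rc _ _
  obtain ⟨K, hK⟩ : ∃ K : Set ℂ, K = Set.Icc (-(R / 2)) (R / 2) ×ℂ Set.Icc (-(R / 2)) (R / 2) :=
    ⟨_, rfl⟩
  have hKc : IsCompact K := by rw [hK]; exact isCompact_Icc.reProdIm isCompact_Icc
  have hKm : ∀ w : ℂ, w ∈ K ↔ |w.re| ≤ R / 2 ∧ |w.im| ≤ R / 2 := by
    intro w
    rw [hK, Complex.mem_reProdIm, Set.mem_Icc, Set.mem_Icc, abs_le, abs_le]
  have hKU : K ⊆ Rc R R := by
    intro w hw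
    rw [hKm] at hw
    exact ⟨by linarith [hw.1], by linarith [hw.2]⟩
  obtain ⟨g, c', hc1, hgd, hglim⟩ := Pool.Agent.W930.HTLog.main X G (Rc R R) K hopen
    (Pool.Agent.W293.HT.convex_Rc _ _) (Eventually.of_forall fun N => (hX N).differentiableOn)
    hG hMW hKc hKU
  obtain ⟨V, hV⟩ : ∃ V : ℝ, V = (qq (2 * m) G z).re := ⟨_, rfl⟩
  obtain ⟨h, hh⟩ : ∃ h : ℝ, h = z.im := ⟨_, rfl⟩
  have hh0 : 0 < h := by rw [hh]; exact hz0
  have hh1 : h < R / 4 := by
    rw [hh]
    exact (le_abs_self _).trans_lt hz.2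
  obtain ⟨F, hF⟩ : ∃ F : ℕ → ℂ → ℂ, F = fun N χ => wE N m χ * X N χ := ⟨_, rfl⟩
  have hFd : ∀ N, Differentiable ℂ (F N) := by
    intro N
    rw [hF]
    exact (wE_diff N m).mul (hX N)
  have hFo : ∀ N w, F N (-w) = -F N w := by
    intro N w
    rw [hF]
    simp only
    rw [wE_odd, hXe, neg_mul]
  -- the open set
  obtain ⟨U, hU⟩ : ∃ U : Set ℂ, U = {w : ℂ | |w.re| < R / 2 ∧ h / 2 < w.im ∧ w.im < R / 2} :=
    ⟨_, rfl⟩
  have hUo : IsOpen U := by
    rw [hU]
    have o1 : IsOpen {w : ℂ | |w.re| < R / 2} := isOpen_lt (by fun_prop) continuous_const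
    have o2 : IsOpen {w : ℂ | h / 2 < w.im} := isOpen_lt continuous_const (by fun_prop)
    have o3 : IsOpen {w : ℂ | w.im < R / 2} := isOpen_lt (by fun_prop) continuous_const
    exact o1.inter (o2.inter o3)
  have hUm : ∀ w ∈ U, |w.re| < R / 2 ∧ h / 2 < w.im ∧ w.im < R / 2 := by
    intro w hw; rw [hU] at hw; exact hw
  have hUK : U ⊆ K := by
    intro w hw
    have := hUm w hw
    rw [hKm, abs_of_pos (show 0 < w.im by linarith [this.2.1])]
    exact ⟨this.1.le, this.2.2.le⟩
  have hpol : Differentiable ℂ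
      (fun w : ℂ => Complex.I * (2 * m : ℤ) * w ^ 2 / (4 * π) + Complex.I * w) := by
    fun_prop
  have hqqd : ∀ g : ℂ → ℂ, DifferentiableOn ℂ g (Rc R R) →
      DifferentiableOn ℂ (qq (2 * m) g) (Rc R R) := by
    intro g hg
    unfold qq
    exact hpol.differentiableOn.add hg
  have hqlim : TendstoUniformlyOn (fun N => qq (2 * m) (g N)) (qq (2 * m) G) atTop K := by
    rw [Metric.tendstoUniformlyOn_iff] at hglim ⊢
    intro ε hε
    filter_upwards [hglim ε hε] with N hN w hw
    have := hN w hw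
    rw [dist_eq_norm] at this ⊢
    have e : qq (2 * m) G w - qq (2 * m) (g N) w = G w - g N w := by
      unfold qq; ring
    rw [e]; exact this
  have hzre := hz.1
  obtain ⟨δ, hδ⟩ : ∃ δ : ℝ, δ = (R / 4 - |z.re|) / 2 := ⟨_, rfl⟩
  have hδ0 : 0 < δ := by rw [hδ]; linarith
  have hre := abs_le.1 (le_refl |z.re|)
  -- the integral on the horizontal segment
  have hG1 := core (fun N => qq (2 * m) (g N)) pN (qq (2 * m) G) (fun w => Complex.sin w) U
    (-(R / 3)) (R / 3) z hUo
    (by
      filter_upwards [hgd] with N hN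
      exact (hqqd _ hN.1).mono (hUK.trans hKU))
    ((hqqd _ hG).mono (hUK.trans hKU)) (hqlim.mono hUK)
    (by
      filter_upwards [eventually_gt_atTop 0] with N hN
      exact pN_diff hN (fun w hw => by linarith [(hUm w hw).2.1]))
    (by fun_prop)
    (pN_lim (h := h / 2) (H := R / 2) (by linarith)
      (fun w hw => ⟨(hUm w hw).2.1.le, (hUm w hw).2.2.le⟩))
    (by linarith [hre.1]) (by linarith [hre.2])
    (by
      intro x hx1 hx2
      rw [hU]
      have e1 : ((x : ℂ) + z.im * Complex.I).re = x := by simp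
      have e2 : ((x : ℂ) + z.im * Complex.I).im = z.im := by simp
      refine ⟨?_, ?_, ?_⟩
      · rw [e1]
        have : |x| ≤ R / 3 := abs_le.2 ⟨hx1, hx2⟩
        linarith
      · rw [e2, ← hh]; linarith
      · rw [e2, ← hh]; linarith)
    hS.crit hS.neg hS.sn
    (by
      intro x hx1 hx2 hxz
      refine (hline x (abs_le.2 ⟨hx1, hx2⟩)).trans_lt ?_
      have h1 : 0 < (x - z.re) ^ 2 := by
        have := sub_ne_zero.2 hxz
        positivity
      nlinarith)
    hδ0 (α := fun N => -rN R N) (β := fun N => rN R N)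
    (by
      filter_upwards [rN_ev hR (lt_min hδ0 (show 0 < R / 12 by positivity))] with N hN
      have h1 := abs_lt.1 (hN.trans_le (min_le_left _ _))
      have h2 := abs_lt.1 (hN.trans_le (min_le_right _ _))
      constructor
      · linarith [h2.2]
      · linarith [h1.1, hre.1])
    (by
      filter_upwards [rN_ev hR (lt_min hδ0 (show 0 < R / 12 by positivity))] with N hN
      have h1 := abs_lt.1 (hN.trans_le (min_le_left _ _))
      have h2 := abs_lt.1 (hN.trans_le (min_le_right _ _))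
      constructor
      · linarith [h1.1, hre.2]
      · linarith [h2.2])
  rw [← hV] at hG1
  -- the formula of the integrand
  have hint : ∀ᶠ N : ℕ in atTop, ∀ w ∈ Rc R R, F N w * kN N w =
      c' N * (pN N w * Complex.exp (N * qq (2 * m) (g N) w)) := by
    filter_upwards [hgd] with N hN w hw
    rw [hF]
    exact integrand N m w _ _ _ (hN.2 w hw)
  have hG2 : Gro (fun N => -2 * ∫ x in (-rN R N)..(rN R N), F N (x + h * Complex.I) *
      kN N (x + h * Complex.I)) V := by
    refine gro_norm (c := 2) two_pos hG1 ?_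
    filter_upwards [hint, rN_ev hR (show 0 < R / 12 by positivity), eventually_ge_atTop 1]
      with N h1 h2 h3
    have h2' := abs_lt.1 h2
    have hr0 : 0 ≤ rN R N := by linarith [h2'.1]
    have e1 : (∫ x in (-rN R N)..(rN R N), F N (x + h * Complex.I) * kN N (x + h * Complex.I)) =
        c' N * ∫ x in (-rN R N)..(rN R N), pN N (x + z.im * Complex.I) *
          Complex.exp (N * qq (2 * m) (g N) (x + z.im * Complex.I)) := by
      rw [← intervalIntegral.integral_const_mul]
      apply intervalIntegral.integral_congr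
      intro x hx
      rw [Set.uIcc_of_le (by linarith)] at hx
      have hin : (x : ℂ) + h * Complex.I ∈ Rc R R := by
        refine ⟨?_, ?_⟩
        · have : ((x : ℂ) + h * Complex.I).re = x := by simp
          rw [this]
          have : |x| ≤ rN R N := abs_le.2 hx
          linarith
        · have : ((x : ℂ) + h * Complex.I).im = h := by simp
          rw [this, abs_of_pos hh0]
          linarith
      show F N (x + h * Complex.I) * kN N (x + h * Complex.I) = _
      rw [h1 _ hin, hh]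
    rw [e1, norm_mul, norm_neg, Complex.norm_ofNat, norm_mul, hc1, one_mul]
  -- the vertical side
  have hsideU : ∀ σ : ℝ, |σ| = R / 4 → ∀ y : ℝ, 0 ≤ y → y ≤ h → (σ : ℂ) + y * Complex.I ∈ Rc R R := by
    intro σ hσ y hy0 hy1
    refine ⟨?_, ?_⟩
    · have : ((σ : ℂ) + y * Complex.I).re = σ := by simp
      rw [this, hσ]
      linarith
    · have : ((σ : ℂ) + y * Complex.I).im = y := by simp
      rw [this, abs_of_nonneg hy0]
      linarith
  have habs : |R / 4| = R / 4 := abs_of_pos (by positivity)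
  obtain ⟨κ1, hκ1, δ1, hδ1, hs1⟩ := side0 hopen (hqqd G hG).continuousOn (a := R / 4) (h := h)
    (v := V) (hsideU _ habs) (by
      intro y hy0 hy1
      rw [hV]
      have := (hS.side y hy0 (by rw [← hh]; exact hy1)).1
      simpa using this)
  obtain ⟨κ2, hκ2, δ2, hδ2, hs2⟩ := side0 hopen (hqqd G hG).continuousOn (a := -(R / 4)) (h := h)
    (v := V) (hsideU _ (by rw [abs_neg, habs])) (by
      intro y hy0 hy1
      rw [hV]
      have := (hS.side y hy0 (by rw [← hh]; exact hy1)).2
      simpa using this)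
  obtain ⟨κ, hκ⟩ : ∃ κ : ℝ, κ = min κ1 κ2 / 2 := ⟨_, rfl⟩
  have hκ0 : 0 < κ := by rw [hκ]; have := lt_min hκ1 hκ2; linarith
  have hκa : 2 * κ ≤ κ1 := by rw [hκ]; have := min_le_left κ1 κ2; linarith
  have hκb : 2 * κ ≤ κ2 := by rw [hκ]; have := min_le_right κ1 κ2; linarith
  have hN2 : Neg (fun N => 2 * Complex.I * ∫ y in (-h)..h, F N (rN R N + y * Complex.I) *
      kN N (rN R N + y * Complex.I)) V := by
    apply neg_of_bound (C := 2 * (Real.exp h * (2 * h))) hκ0
    rw [Metric.tendstoUniformlyOn_iff] at hqlim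
    filter_upwards [hint, hqlim κ hκ0, rN_ev hR (lt_min (lt_min hδ1 hδ2)
      (show 0 < R / 12 by positivity)), eventually_ge_atTop 1] with N h1 h2 h3 h4
    have h3a := h3.trans_le ((min_le_left _ _).trans (min_le_left _ _))
    have h3b := h3.trans_le ((min_le_left _ _).trans (min_le_right _ _))
    have h3c := abs_lt.1 (h3.trans_le (min_le_right _ _))
    have hN' : (0 : ℝ) ≤ N := Nat.cast_nonneg N
    -- the bound for one sign
    have hb : ∀ σ : ℝ, (σ = rN R N ∨ σ = -rN R N) → ∀ y : ℝ, 0 ≤ y → y ≤ h →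
        ‖F N (σ + y * Complex.I) * kN N (σ + y * Complex.I)‖ ≤
          Real.exp h * Real.exp (N * (V - κ)) := by
      intro σ hσ y hy0 hy1
      have hσ' : |σ| = rN R N := by
        rcases hσ with h | h
        · rw [h, abs_of_nonneg (by linarith [h3c.1])]
        · rw [h, abs_neg, abs_of_nonneg (by linarith [h3c.1])]
      have e1 : ((σ : ℂ) + y * Complex.I).re = σ := by simp
      have e2 : ((σ : ℂ) + y * Complex.I).im = y := by simp
      have hinK : (σ : ℂ) + y * Complex.I ∈ K := by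
        rw [hKm, e1, e2, hσ', abs_of_nonneg hy0]
        constructor
        · linarith [h3c.2]
        · linarith
      have hqle : (qq (2 * m) G (σ + y * Complex.I)).re ≤ V - 2 * κ := by
        rcases hσ with h | h
        · rw [h]
          exact ((hs1 (rN R N) h3a y hy0 hy1).2).trans (by linarith)
        · rw [h]
          refine ((hs2 (-rN R N) ?_ y hy0 hy1).2).trans (by linarith)
          have : -rN R N - -(R / 4) = -(rN R N - R / 4) := by ring
          rw [this, abs_neg]
          exact h3b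
      rw [h1 _ (hKU hinK), norm_mul, hc1, one_mul, norm_mul]
      apply mul_le_mul (pN_side h4 hσ hy0 hy1) _ (norm_nonneg _) (Real.exp_pos _).le
      rw [Complex.norm_exp]
      apply Real.exp_le_exp.2
      have : ((N : ℂ) * qq (2 * m) (g N) (σ + y * Complex.I)).re =
          N * (qq (2 * m) (g N) (σ + y * Complex.I)).re := by
        simp
      rw [this]
      apply mul_le_mul_of_nonneg_left _ hN'
      have h6 := h2 _ hinK
      rw [dist_comm, dist_eq_norm] at h6
      have h7 := (Complex.abs_re_le_norm _).trans h6.le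
      rw [Complex.sub_re] at h7
      have h8 := (abs_le.1 h7).2
      linarith
    have h5 : ∀ y ∈ Set.uIoc (-h) h, ‖F N (rN R N + y * Complex.I) *
        kN N (rN R N + y * Complex.I)‖ ≤ Real.exp h * Real.exp (N * (V - κ)) := by
      intro y hy
      rw [Set.uIoc_of_le (by linarith)] at hy
      rcases le_total 0 y with h0 | h0
      · exact hb (rN R N) (Or.inl rfl) y h0 hy.2
      · have h6 := hb (-rN R N) (Or.inr rfl) (-y) (by linarith) (by linarith [hy.1])
        have e3 : (((-rN R N : ℝ) : ℂ) + (-y : ℝ) * Complex.I) = -(rN R N + y * Complex.I) := by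
          push_cast
          ring
        rw [e3, hFo, kN_neg, neg_mul, norm_neg] at h6
        exact h6
    have h6 := intervalIntegral.norm_integral_le_of_norm_le_const h5
    have h7 : |h - -h| = 2 * h := by
      rw [abs_of_pos (by linarith)]
      ring
    rw [h7] at h6
    rw [norm_mul, norm_mul, Complex.norm_ofNat, Complex.norm_I, mul_one]
    have h8 : (1 : ℝ) ≤ N + 1 := by linarith
    calc 2 * ‖∫ y in (-h)..h, F N (rN R N + y * Complex.I) * kN N (rN R N + y * Complex.I)‖ ≤
        2 * (Real.exp h * Real.exp (N * (V - κ)) * (2 * h)) := by linarith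
      _ = 2 * (Real.exp h * (2 * h)) * 1 * Real.exp (N * (V - κ)) := by ring
      _ ≤ 2 * (Real.exp h * (2 * h)) * (N + 1) * Real.exp (N * (V - κ)) := by
          gcongr
  have hG3 := ((hG2.add hN2).natMul).natMul
  have hG4 : Gro (fun N : ℕ => Complex.I / (2 * π) * (N * (N *
      (-2 * (∫ x in (-rN R N)..(rN R N), F N (x + h * Complex.I) * kN N (x + h * Complex.I)) +
      2 * Complex.I * ∫ y in (-h)..h, F N (rN R N + y * Complex.I) *
      kN N (rN R N + y * Complex.I))))) V := by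
    refine gro_norm (c := 1 / (2 * π)) (by positivity) hG3 (Eventually.of_forall fun N => ?_)
    rw [norm_mul, norm_div, Complex.norm_I, norm_mul, Complex.norm_ofNat, Complex.norm_real,
      Real.norm_eq_abs, abs_of_pos Real.pi_pos]
  rw [← hV]
  refine hG4.log.congr' ?_
  filter_upwards [eventually_ge_atTop 1] with N hN
  have h1 := sum_deriv (hFd N) (hFo N) hN ⌊R / 4 * N / (2 * π)⌋₊ hh0
  rw [hF] at h1 ⊢
  rw [h1]
  rfl

/-- CHI -/
theorem chi : Pool.Agent.Y472.S_CHI := by
  intro R c B p₀ hR hR1 hc _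
  obtain ⟨M, hM, h⟩ := crit_exists B hR hR1 hc
  refine ⟨16, M, by norm_num, hM, ?_⟩
  intro X G hX hXe hG hev hb hMW m hm
  obtain ⟨z, h1, h2, h3, h4, h5, h6, h7⟩ := h G hG hev (fun z hz => ⟨(hb z hz).1, (hb z hz).2.1⟩) m hm
  have e : qq (2 * m) G z = Complex.I * m * z ^ 2 / (2 * π) + Complex.I * z + G z := by
    unfold qq
    push_cast
    ring
  refine ⟨z, h1, h2, h3, h4, ?_, ?_⟩
  · rw [← e]
    exact h6
  · rw [← e]
    exact tend hR hX hXe hG hMW m h1 h2 h5 hc h7

end Pool.Agent.Y391.CB
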