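import Pool.Agent.W588.HT.Box

/-! The sum of the values of a derivative at the points `2 π p / N` as a boundary integral. -/

set_option autoImplicit false

namespace Pool.Agent.Y391.CB

open Filter Topology Metric Set MeasureTheory Pool.Agent.W709.VC Pool.Agent.W588.HT
open scoped Real Interval

/-- `e^{iNu} / (1 - e^{iNu})^2` -/
noncomputable def kN (N : ℕ) (u : ℂ) : ℂ :=
  Complex.exp (Complex.I * N * u) / (1 - Complex.exp (Complex.I * N * u)) ^ 2

theorem kN_neg (N : ℕ) (u : ℂ) : kN N (-u) = kN N u := by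
  unfold kN
  have h1 : Complex.exp (Complex.I * N * -u) = (Complex.exp (Complex.I * N * u))⁻¹ := by
    rw [← Complex.exp_neg]
    congr 1
    ring
  rw [h1]
  have h2 : Complex.exp (Complex.I * N * u) ≠ 0 := Complex.exp_ne_zero _
  generalize Complex.exp (Complex.I * N * u) = e at *
  by_cases h3 : 1 - e = 0
  · have h4 : e = 1 := by linear_combination -h3
    rw [h4]
    simp
  · have h4 : 1 - e⁻¹ ≠ 0 := by
      intro h5
      apply h3
      have h6 : e⁻¹ = 1 := by linear_combination -h5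
      have h7 : e = 1 := by rw [← inv_inv e, h6, inv_one]
      rw [h7, sub_self]
    have h5 : 1 - e⁻¹ = -((1 - e) / e) := by
      field_simp
      ring
    rw [h5]
    field_simp

/-- the boundary integral of a derivative -/
theorem rect_of_deriv {f f' : ℂ → ℂ} {a b c d : ℝ}
    (hd : ∀ z ∈ Bd a b c d, HasDerivAt f (f' z) z) (hc : ∀ z ∈ Bd a b c d, ContinuousAt f' z) :
    rect f' a b c d = 0 := by
  have hor : ∀ e : ℝ, (∀ x ∈ [[a, b]], ((x : ℂ) + e * Complex.I) ∈ Bd a b c d) →
      (∫ x in a..b, f' (x + e * Complex.I)) = f (b + e * Complex.I) - f (a + e * Complex.I) := by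
    intro e he
    apply intervalIntegral.integral_eq_sub_of_hasDerivAt (f := fun x : ℝ => f (x + e * Complex.I))
    · intro x hx
      have h1 : HasDerivAt (fun w : ℂ => f (w + e * Complex.I)) (f' (x + e * Complex.I)) (x : ℂ) :=
        HasDerivAt.comp_add_const (x : ℂ) (e * Complex.I) (hd _ (he x hx))
      exact h1.comp_ofReal
    · apply ContinuousOn.intervalIntegrable
      intro x hx
      exact (ContinuousAt.comp (g := f') (f := fun x : ℝ => (x : ℂ) + e * Complex.I)
        (hc _ (he x hx)) (by fun_prop)).continuousWithinAt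
  have ver : ∀ e : ℝ, (∀ y ∈ [[c, d]], ((e : ℂ) + y * Complex.I) ∈ Bd a b c d) →
      Complex.I * (∫ y in c..d, f' (e + y * Complex.I)) =
        f (e + d * Complex.I) - f (e + c * Complex.I) := by
    intro e he
    rw [← intervalIntegral.integral_const_mul]
    apply intervalIntegral.integral_eq_sub_of_hasDerivAt (f := fun y : ℝ => f (e + y * Complex.I))
    · intro y hy
      have h2 : HasDerivAt (fun w : ℂ => (e : ℂ) + w * Complex.I) Complex.I (y : ℂ) := by
        have := ((hasDerivAt_id (y : ℂ)).mul_const Complex.I).const_add (e : ℂ)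
        simpa using this
      have h1 : HasDerivAt (fun w : ℂ => f (e + w * Complex.I)) (f' (e + y * Complex.I) * Complex.I)
          (y : ℂ) := HasDerivAt.comp (y : ℂ) (hd _ (he y hy)) h2
      have h3 := h1.comp_ofReal
      rwa [mul_comm] at h3
    · apply ContinuousOn.intervalIntegrable
      intro y hy
      exact (continuousAt_const.mul (ContinuousAt.comp (g := f')
        (f := fun y : ℝ => (e : ℂ) + y * Complex.I)
        (hc _ (he y hy)) (by fun_prop))).continuousWithinAt
  unfold rect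
  rw [hor c (fun x hx => Or.inl ⟨x, hx, rfl⟩), hor d (fun x hx => Or.inr (Or.inl ⟨x, hx, rfl⟩)),
    ver b (fun y hy => Or.inr (Or.inr (Or.inl ⟨y, hy, rfl⟩))),
    ver a (fun y hy => Or.inr (Or.inr (Or.inr ⟨y, hy, rfl⟩)))]
  ring

/-- scaling and translation -/
theorem rect_aff (φ : ℂ → ℂ) {s : ℝ} (hs : s ≠ 0) (t a b c d : ℝ) :
    rect (fun w => φ (s * (w - t))) a b c d =
      (s : ℂ)⁻¹ * rect φ (s * (a - t)) (s * (b - t)) (s * c) (s * d) := by
  have hor : ∀ e : ℝ, (∫ x in a..b, φ (s * (x + e * Complex.I - t))) =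
      (s : ℂ)⁻¹ * ∫ x in (s * (a - t))..(s * (b - t)), φ (x + (s * e : ℝ) * Complex.I) := by
    intro e
    have h1 := intervalIntegral.integral_comp_mul_sub (a := a) (b := b)
      (fun x : ℝ => φ (x + (s * e : ℝ) * Complex.I)) hs (s * t)
    rw [show s * a - s * t = s * (a - t) by ring, show s * b - s * t = s * (b - t) by ring] at h1
    rw [Complex.real_smul, Complex.ofReal_inv] at h1
    rw [← h1]
    apply intervalIntegral.integral_congr
    intro x _
    show φ (s * (x + e * Complex.I - t)) = φ (((s * x - s * t : ℝ) : ℂ) + (s * e : ℝ) * Complex.I)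
    congr 1
    push_cast
    ring
  have ver : ∀ e : ℝ, (∫ y in c..d, φ (s * (e + y * Complex.I - t))) =
      (s : ℂ)⁻¹ * ∫ y in (s * c)..(s * d), φ (((s * (e - t) : ℝ) : ℂ) + y * Complex.I) := by
    intro e
    have h1 := intervalIntegral.integral_comp_mul_left (a := c) (b := d)
      (fun y : ℝ => φ (((s * (e - t) : ℝ) : ℂ) + y * Complex.I)) hs
    rw [Complex.real_smul, Complex.ofReal_inv] at h1
    rw [← h1]
    apply intervalIntegral.integral_congr
    intro y _
    show φ (s * (e + y * Complex.I - t)) = φ (((s * (e - t) : ℝ) : ℂ) + (s * y : ℝ) * Complex.I)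
    congr 1
    push_cast
    ring
  unfold rect
  rw [hor, hor, ver, ver]
  ring

/-- the boundary integral of an odd function -/
theorem rect_odd {φ : ℂ → ℂ} (h : ∀ z, φ (-z) = -φ z) (a b : ℝ) :
    rect φ (-a) a (-b) b = -2 * (∫ x in (-a)..a, φ (x + b * Complex.I)) +
      2 * Complex.I * ∫ y in (-b)..b, φ (a + y * Complex.I) := by
  have h1 : (∫ x in (-a)..a, φ (x + (-b : ℝ) * Complex.I)) =
      -∫ x in (-a)..a, φ (x + b * Complex.I) := by
    have h2 := intervalIntegral.integral_comp_neg (a := -a) (b := a)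
      (fun x : ℝ => φ (x + (-b : ℝ) * Complex.I))
    rw [neg_neg] at h2
    rw [← h2, ← intervalIntegral.integral_neg]
    apply intervalIntegral.integral_congr
    intro x _
    show φ (((-x : ℝ) : ℂ) + (-b : ℝ) * Complex.I) = -φ (x + b * Complex.I)
    rw [← h]
    congr 1
    push_cast
    ring
  have h3 : (∫ y in (-b)..b, φ ((-a : ℝ) + y * Complex.I)) =
      -∫ y in (-b)..b, φ (a + y * Complex.I) := by
    have h2 := intervalIntegral.integral_comp_neg (a := -b) (b := b)
      (fun y : ℝ => φ ((-a : ℝ) + y * Complex.I))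
    rw [neg_neg] at h2
    rw [← h2, ← intervalIntegral.integral_neg]
    apply intervalIntegral.integral_congr
    intro x _
    show φ ((-a : ℝ) + (-x : ℝ) * Complex.I) = -φ (a + x * Complex.I)
    rw [← h]
    congr 1
    push_cast
    ring
  unfold rect
  rw [h1, h3]
  ring

theorem kk_deriv {w : ℂ} (h : EE w ≠ 0) :
    HasDerivAt kk (-(2 * π * Complex.I) * (ee w / EE w ^ 2)) w := by
  have h1 := (EE_deriv w).inv h
  have h2 : kk = fun w => (EE w)⁻¹ := by
    funext w
    unfold kk
    rw [one_div]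
  rw [h2]
  refine h1.congr_deriv ?_
  field_simp

/-- the sum of a derivative -/
theorem sum_deriv {F : ℂ → ℂ} (hF : Differentiable ℂ F) (hodd : ∀ z, F (-z) = -F z) {N : ℕ}
    (hN : 1 ≤ N) (P : ℕ) {h : ℝ} (hh : 0 < h) :
    ∑ p ∈ Finset.Icc (-(P : ℤ)) P, deriv F (2 * π * p / N) =
      Complex.I / (2 * π) * (N * (N * (
        -2 * (∫ x in (-((2 * P + 1) * π / N : ℝ))..((2 * P + 1) * π / N : ℝ),
          F (x + h * Complex.I) * kN N (x + h * Complex.I)) +
        2 * Complex.I * ∫ y in (-h)..h, F (((2 * P + 1) * π / N : ℝ) + y * Complex.I) *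
          kN N (((2 * P + 1) * π / N : ℝ) + y * Complex.I)))) := by
  have hN' : (0 : ℝ) < N := by exact_mod_cast hN
  have hNC : (N : ℂ) ≠ 0 := by exact_mod_cast hN'.ne'
  have hpi := Real.pi_pos
  have hpiC : (π : ℂ) ≠ 0 := by exact_mod_cast hpi.ne'
  obtain ⟨s, hs⟩ : ∃ s : ℝ, s = 2 * π / N := ⟨_, rfl⟩
  have hs0 : 0 < s := by rw [hs]; positivity
  have hsC : (s : ℂ) = 2 * π / N := by rw [hs]; push_cast; ring
  have hsC0 : (s : ℂ) ≠ 0 := by exact_mod_cast hs0.ne'
  obtain ⟨H, hH⟩ : ∃ H : ℝ, H = h / s := ⟨_, rfl⟩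
  have hH0 : 0 < H := by rw [hH]; positivity
  have hsH : s * H = h := by rw [hH]; field_simp
  have hF' : Differentiable ℂ (deriv F) := by
    rw [← differentiableOn_univ]
    exact hF.differentiableOn.deriv isOpen_univ
  -- the sum over naturals
  have e1 : ∑ p ∈ Finset.Icc (-(P : ℤ)) P, deriv F (2 * π * p / N) =
      ∑ d ∈ Finset.Ico 0 (2 * P + 1), (fun w : ℂ => deriv F (s * (w - P))) (d : ℂ) := by
    apply Finset.sum_nbij' (i := fun p : ℤ => (p + P).toNat) (j := fun d : ℕ => (d : ℤ) - P)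
    · intro p hp
      rw [Finset.mem_Icc] at hp
      rw [Finset.mem_Ico]
      omega
    · intro d hd
      rw [Finset.mem_Ico] at hd
      rw [Finset.mem_Icc]
      omega
    · intro p hp
      rw [Finset.mem_Icc] at hp
      omega
    · intro d hd
      rw [Finset.mem_Ico] at hd
      omega
    · intro p hp
      rw [Finset.mem_Icc] at hp
      have h1 : (((p + P).toNat : ℕ) : ℂ) = (p : ℂ) + P := by
        have h2 : (((p + P).toNat : ℕ) : ℤ) = p + P := by omega
        have h3 := congrArg (fun n : ℤ => (n : ℂ)) h2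
        push_cast at h3
        exact h3
      simp only [h1]
      congr 1
      rw [hsC]
      field_simp
      ring
  -- as a boundary integral
  have e2 := sum_rect (f := fun w : ℂ => deriv F (s * (w - P))) isOpen_univ
    (by
      apply Differentiable.differentiableOn
      exact hF'.comp (by fun_prop)) (A := 0) (B := 2 * P + 1) (Nat.zero_le _) hH0
    (fun x y _ _ _ => mem_univ _)
  rw [e1, e2]
  obtain ⟨g, hg⟩ : ∃ g : ℂ → ℂ, g = fun w => (s : ℂ)⁻¹ * F (s * (w - P)) := ⟨_, rfl⟩
  have hgd : ∀ w, HasDerivAt g (deriv F (s * (w - P))) w := by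
    intro w
    have h1 : HasDerivAt (fun w : ℂ => (s : ℂ) * (w - P)) (s : ℂ) w := by
      simpa using ((hasDerivAt_id w).sub_const (P : ℂ)).const_mul (s : ℂ)
    have h2 := (HasDerivAt.comp w (hF _).hasDerivAt h1).const_mul (s : ℂ)⁻¹
    rw [hg]
    refine h2.congr_deriv ?_
    field_simp
  have hEE : ∀ w ∈ Bd (((0 : ℕ) : ℝ) - 1 / 2) (((2 * P + 1 : ℕ) : ℝ) - 1 / 2) (-H) H, EE w ≠ 0 := by
    intro w hw
    apply EE_Bd (m := 0) (n := ((2 * P + 1 : ℕ) : ℤ)) hH0
    simpa using hw
  have e3 : rect (fun w => deriv F (s * (w - P)) * kk w + g w * (-(2 * π * Complex.I) *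
      (ee w / EE w ^ 2))) (((0 : ℕ) : ℝ) - 1 / 2) (((2 * P + 1 : ℕ) : ℝ) - 1 / 2) (-H) H = 0 := by
    apply rect_of_deriv (f := fun w => g w * kk w)
    · intro w hw
      exact (hgd w).mul (kk_deriv (hEE w hw))
    · intro w hw
      apply ContinuousAt.add
      · apply ContinuousAt.mul
        · exact (hF'.comp (by fun_prop : Differentiable ℂ fun w : ℂ => (s : ℂ) * (w - P))).continuous.continuousAt
        · exact kk_cont (hEE w hw)
      · apply ContinuousAt.mul (hgd w).continuousAt
        apply ContinuousAt.mul continuousAt_const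
        exact (ee_deriv w).continuousAt.div (EE_diff.continuous.continuousAt.pow 2)
          (pow_ne_zero 2 (hEE w hw))
  have hR1 : RI (fun w => deriv F (s * (w - P)) * kk w) (((0 : ℕ) : ℝ) - 1 / 2)
      (((2 * P + 1 : ℕ) : ℝ) - 1 / 2) (-H) H := by
    apply RI_of_cont
    intro w hw
    apply ContinuousAt.mul
    · exact (hF'.comp (by fun_prop : Differentiable ℂ fun w : ℂ => (s : ℂ) * (w - P))).continuous.continuousAt
    · exact kk_cont (hEE w hw)
  have hR2 : RI (fun w => g w * (-(2 * π * Complex.I) * (ee w / EE w ^ 2)))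
      (((0 : ℕ) : ℝ) - 1 / 2) (((2 * P + 1 : ℕ) : ℝ) - 1 / 2) (-H) H := by
    apply RI_of_cont
    intro w hw
    apply ContinuousAt.mul (hgd w).continuousAt
    apply ContinuousAt.mul continuousAt_const
    exact (ee_deriv w).continuousAt.div (EE_diff.continuous.continuousAt.pow 2)
      (pow_ne_zero 2 (hEE w hw))
  rw [rect_add hR1 hR2] at e3
  -- scaling
  obtain ⟨φ, hφ⟩ : ∃ φ : ℂ → ℂ, φ = fun u => F u * kN N u := ⟨_, rfl⟩
  have e4 : rect (fun w => g w * (-(2 * π * Complex.I) * (ee w / EE w ^ 2)))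
      (((0 : ℕ) : ℝ) - 1 / 2) (((2 * P + 1 : ℕ) : ℝ) - 1 / 2) (-H) H =
      (-(2 * π * Complex.I) * (s : ℂ)⁻¹) * rect (fun w => φ (s * (w - (P : ℝ))))
      (((0 : ℕ) : ℝ) - 1 / 2) (((2 * P + 1 : ℕ) : ℝ) - 1 / 2) (-H) H := by
    rw [← rect_mul]
    congr 1
    funext w
    have h1 : Complex.exp (Complex.I * N * (s * (w - (P : ℝ)))) = ee w := by
      unfold ee
      have h2 : Complex.I * N * (s * (w - (P : ℝ))) = 2 * π * Complex.I * w +
          ((-(P : ℤ) : ℤ) : ℂ) * (2 * π * Complex.I) := by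
        rw [hsC]
        push_cast
        field_simp
        ring
      rw [h2, Complex.exp_add, Complex.exp_int_mul_two_pi_mul_I, mul_one]
    rw [hg, hφ]
    simp only [kN]
    rw [h1]
    have h3 : (1 - ee w) ^ 2 = EE w ^ 2 := by
      unfold EE
      ring
    rw [h3, Complex.ofReal_natCast]
    ring
  rw [rect_aff φ hs0.ne' P] at e4
  have c1 : s * ((((0 : ℕ) : ℝ) - 1 / 2) - P) = -((2 * P + 1) * π / N) := by
    rw [hs]
    push_cast
    field_simp
    ring
  have c2 : s * ((((2 * P + 1 : ℕ) : ℝ) - 1 / 2) - P) = (2 * P + 1) * π / N := by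
    rw [hs]
    push_cast
    field_simp
    ring
  have c3 : s * -H = -h := by rw [mul_neg, hsH]
  rw [c1, c2, c3, hsH] at e4
  have hφo : ∀ z, φ (-z) = -φ z := by
    intro z
    rw [hφ]
    simp only
    rw [hodd, kN_neg]
    ring
  rw [rect_odd hφo] at e4
  rw [e4] at e3
  have e5 : (s : ℂ)⁻¹ = N / (2 * π) := by
    rw [hsC, inv_div]
  rw [e5] at e3
  rw [hφ] at e3
  simp only at e3
  rw [eq_neg_of_add_eq_zero_left e3]
  field_simp

end Pool.Agent.Y391.CB
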