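import Pool.Agent.Y472.C.Defs
import Pool.Agent.Y391.CB.Rect
import Pool.Agent.W293.HT.CP
import Pool.Agent.W588.HT.LapSum
import Pool.Agent.W930.HT.Log
import Pool.Agent.W19.HT.Fix
import Pool.Agent.W85.HT.LapInt

/-! CB3-CHI: the sum over the values of the variable of the axis (project of helper472). -/

set_option autoImplicit false

namespace Pool.Agent.Y391.CB

open Filter Topology Metric Set MeasureTheory Pool.Agent.W711.HT Pool.Agent.W588.HT
open Pool.Agent.Y472 (wE)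
open scoped Real Interval

theorem gro_norm {I I' : ℕ → ℂ} {v c : ℝ} (hc : 0 < c) (h : Gro I v)
    (he : ∀ᶠ N : ℕ in atTop, ‖I' N‖ = c * ‖I N‖) : Gro I' v := by
  intro ε hε
  filter_upwards [h (ε / 2) (by positivity), he, poly_le_exp c (κ := ε / 2) (by positivity),
    poly_le_exp (1 / c) (κ := ε / 2) (by positivity)] with N h1 h2 h3 h4
  rw [h2]
  have hN : (0 : ℝ) ≤ N := Nat.cast_nonneg N
  have h5 : c ≤ Real.exp (N * (ε / 2)) := by
    refine le_trans ?_ h3
    nlinarith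
  have h6 : 1 / c ≤ Real.exp (N * (ε / 2)) := by
    refine le_trans ?_ h4
    have : 0 < 1 / c := by positivity
    nlinarith
  constructor
  · have e1 : Real.exp (N * (v - ε)) * Real.exp (N * (ε / 2)) = Real.exp (N * (v - ε / 2)) := by
      rw [← Real.exp_add]; congr 1; ring
    have e2 : 1 ≤ c * Real.exp (N * (ε / 2)) := by
      rwa [div_le_iff₀ hc, mul_comm] at h6
    have e3 : Real.exp (N * (v - ε)) ≤ c * (Real.exp (N * (v - ε)) * Real.exp (N * (ε / 2))) := by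
      have := Real.exp_pos (N * (v - ε))
      nlinarith
    rw [e1] at e3
    exact e3.trans (mul_le_mul_of_nonneg_left h1.1 hc.le)
  · have e1 : Real.exp (N * (ε / 2)) * Real.exp (N * (v + ε / 2)) = Real.exp (N * (v + ε)) := by
      rw [← Real.exp_add]; congr 1; ring
    rw [← e1]
    exact mul_le_mul h5 h1.2 (norm_nonneg _) (Real.exp_pos _).le

/-- uniform gap near a vertical segment -/
theorem side0 {Q : ℂ → ℂ} {U : Set ℂ} (hU : IsOpen U) (hQ : ContinuousOn Q U) {a h v : ℝ}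
    (hK : ∀ y : ℝ, 0 ≤ y → y ≤ h → (a : ℂ) + y * Complex.I ∈ U)
    (hlt : ∀ y : ℝ, 0 ≤ y → y ≤ h → (Q (a + y * Complex.I)).re < v) :
    ∃ κ : ℝ, 0 < κ ∧ ∃ δ : ℝ, 0 < δ ∧ ∀ x : ℝ, |x - a| < δ → ∀ y : ℝ, 0 ≤ y → y ≤ h →
      (x : ℂ) + y * Complex.I ∈ U ∧ (Q (x + y * Complex.I)).re ≤ v - κ := by
  have hc : Continuous fun w : ℂ => w + (h / 2 : ℝ) * Complex.I := by fun_prop
  have e1 : ∀ x y : ℝ, (x : ℂ) + y * Complex.I + (h / 2 : ℝ) * Complex.I =
      x + (y + h / 2 : ℝ) * Complex.I := by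
    intro x y
    push_cast
    ring
  obtain ⟨κ, hκ, δ, hδ, h1⟩ := side (Q := fun w => Q (w + (h / 2 : ℝ) * Complex.I))
    (U := {w | w + (h / 2 : ℝ) * Complex.I ∈ U}) (hU.preimage hc)
    (hQ.comp hc.continuousOn (fun w hw => hw)) (a := a) (h := h / 2) (v := v) (by
      intro y hy
      rw [abs_le] at hy
      show (a : ℂ) + y * Complex.I + (h / 2 : ℝ) * Complex.I ∈ U
      rw [e1]
      exact hK _ (by linarith) (by linarith)) (by
      intro y hy
      rw [abs_le] at hy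
      show (Q ((a : ℂ) + y * Complex.I + (h / 2 : ℝ) * Complex.I)).re < v
      rw [e1]
      exact hlt _ (by linarith) (by linarith))
  refine ⟨κ, hκ, δ, hδ, fun x hx y hy0 hy1 => ?_⟩
  have h2 := h1 x hx (y - h / 2) (abs_le.2 ⟨by linarith, by linarith⟩)
  have h3 : (x : ℂ) + (y - h / 2 : ℝ) * Complex.I + (h / 2 : ℝ) * Complex.I ∈ U ∧
    (Q ((x : ℂ) + (y - h / 2 : ℝ) * Complex.I + (h / 2 : ℝ) * Complex.I)).re ≤ v - κ := h2
  rw [e1, sub_add_cancel] at h3
  exact h3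

/-! ### The amplitude -/

/-- `sin w / (1 - e^{iNw})^2` -/
noncomputable def pN (N : ℕ) (w : ℂ) : ℂ :=
  Complex.sin w / (1 - Complex.exp (Complex.I * N * w)) ^ 2

theorem norm_e (N : ℕ) (w : ℂ) : ‖Complex.exp (Complex.I * N * w)‖ = Real.exp (-(N * w.im)) := by
  rw [Complex.norm_exp]
  congr 1
  simp [Complex.mul_re, Complex.mul_im]

theorem e_ne {N : ℕ} (hN : 0 < N) {w : ℂ} (hw : 0 < w.im) :
    1 - Complex.exp (Complex.I * N * w) ≠ 0 := by
  have h1 : ‖-Complex.exp (Complex.I * N * w)‖ < 1 := by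
    rw [norm_neg, norm_e, Real.exp_lt_one_iff]
    have : (0 : ℝ) < N := by exact_mod_cast hN
    have : 0 < N * w.im := by positivity
    linarith
  have := Pool.Agent.W85.HT.one_add_ne h1
  rwa [← sub_eq_add_neg] at this

theorem pN_diff {N : ℕ} (hN : 0 < N) {U : Set ℂ} (hU : ∀ w ∈ U, 0 < w.im) :
    DifferentiableOn ℂ (pN N) U := by
  intro w hw
  apply DifferentiableAt.differentiableWithinAt
  unfold pN
  apply DifferentiableAt.div
  · fun_prop
  · fun_prop
  · exact pow_ne_zero _ (e_ne hN (hU w hw))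

theorem pN_lim {h H : ℝ} (hh : 0 < h) {U : Set ℂ} (hU : ∀ w ∈ U, h ≤ w.im ∧ w.im ≤ H) :
    TendstoUniformlyOn pN (fun w => Complex.sin w) atTop U := by
  rw [Metric.tendstoUniformlyOn_iff]
  intro ε hε
  have h1 : Tendsto (fun N : ℕ => Real.exp (-(h * (N : ℝ)))) atTop (𝓝 0) := by
    rw [Real.tendsto_exp_comp_nhds_zero]
    exact tendsto_neg_atTop_atBot.comp
      (Tendsto.const_mul_atTop hh tendsto_natCast_atTop_atTop)
  have h2 : ∀ᶠ N : ℕ in atTop, Real.exp (-(h * (N : ℝ))) < min (1 / 2) (ε / (10 * Real.exp H)) :=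
    h1.eventually_lt_const (lt_min (by norm_num) (by positivity))
  filter_upwards [h2] with N hN w hw
  obtain ⟨hw1, hw2⟩ := hU w hw
  obtain ⟨e, he⟩ : ∃ e : ℂ, e = -Complex.exp (Complex.I * N * w) := ⟨_, rfl⟩
  have k1 : ‖e‖ ≤ Real.exp (-(h * (N : ℝ))) := by
    rw [he, norm_neg, norm_e]
    apply Real.exp_le_exp.2
    have : h * N ≤ N * w.im := by
      rw [mul_comm]
      exact mul_le_mul_of_nonneg_left hw1 (Nat.cast_nonneg _)
    linarith
  have k2 : ‖e‖ < 1 / 2 := k1.trans_lt (hN.trans_le (min_le_left _ _))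
  have k3 : ‖e‖ < ε / (10 * Real.exp H) := k1.trans_lt (hN.trans_le (min_le_right _ _))
  have k4 := Pool.Agent.W85.HT.inv_close k2.le
  have k5 : ‖Complex.sin w‖ ≤ Real.exp H := by
    refine (Pool.Agent.W85.HT.norm_sin_le w).trans (Real.exp_le_exp.2 ?_)
    rw [abs_of_pos (lt_of_lt_of_le hh hw1)]
    exact hw2
  rw [dist_eq_norm]
  have e1 : Complex.sin w - pN N w = Complex.sin w * (1 - 1 / (1 + e) ^ 2) := by
    unfold pN
    rw [he]
    ring
  rw [e1, norm_mul]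
  rw [lt_div_iff₀ (by positivity)] at k3
  calc ‖Complex.sin w‖ * ‖1 - 1 / (1 + e) ^ 2‖ ≤ Real.exp H * (10 * ‖e‖) :=
        mul_le_mul k5 k4 (norm_nonneg _) (by positivity)
    _ = ‖e‖ * (10 * Real.exp H) := by ring
    _ < ε := k3

theorem integrand (N : ℕ) (m : ℤ) (w x c g : ℂ) (hx : x = c * Complex.exp (N * g)) :
    wE N m w * x * kN N w = c * (pN N w * Complex.exp (N * (Complex.I * (2 * m : ℤ) * w ^ 2 / (4 * π) +
      Complex.I * w + g))) := by
  have e1 : Complex.exp (N * (Complex.I * (2 * m : ℤ) * w ^ 2 / (4 * π) + Complex.I * w + g)) =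
      Ea (2 * m) N w * Complex.exp (Complex.I * N * w) * Complex.exp (N * g) := by
    unfold Ea
    rw [← Complex.exp_add, ← Complex.exp_add]
    congr 1
    push_cast
    ring
  rw [e1, hx]
  unfold Pool.Agent.Y472.wE kN pN
  ring

theorem wE_odd (N : ℕ) (m : ℤ) (z : ℂ) : wE N m (-z) = -wE N m z := by
  unfold Pool.Agent.Y472.wE Ea
  rw [Complex.sin_neg, neg_sq, neg_mul]

theorem wE_diff (N : ℕ) (m : ℤ) : Differentiable ℂ (wE N m) := by
  have : wE N m = fun χ => Complex.sin χ * Complex.exp (Complex.I * (2 * m : ℤ) * N * χ ^ 2 / (4 * π)) := by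
    funext χ
    rfl
  rw [this]
  fun_prop

/-! ### The critical point -/

theorem hasDerivAt_dqq {R : ℝ} {G : ℂ → ℂ} (hG : DifferentiableOn ℂ G (Rc R R)) (a : ℤ) {w : ℂ}
    (hw : w ∈ Rc R R) :
    HasDerivAt (fun w => Complex.I * a * w / (2 * π) + Complex.I + deriv G w)
      (Complex.I * a / (2 * π) + deriv (deriv G) w) w := by
  have h2 : HasDerivAt (fun w : ℂ => Complex.I * a * w / (2 * π)) (Complex.I * a / (2 * π)) w := by
    have h3 := ((hasDerivAt_id w).const_mul (Complex.I * a)).div_const (2 * π)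
    simpa using h3
  have h4 : DifferentiableAt ℂ (deriv G) w :=
    (hG.deriv (Pool.Agent.W293.HT.isOpen_Rc _ _)).differentiableAt
      ((Pool.Agent.W293.HT.isOpen_Rc _ _).mem_nhds hw)
  exact (h2.add_const Complex.I).add h4.hasDerivAt

theorem crit_exists {R c : ℝ} (B : ℝ) (hR : 0 < R) (hR1 : R ≤ 1) (hc : 0 < c) :
    ∃ M : ℝ, 0 < M ∧ ∀ G : ℂ → ℂ, DifferentiableOn ℂ G (Rc R R) → (∀ z ∈ Rc R R, G (-z) = G z) →
      (∀ z ∈ Rc R R, ‖G z‖ ≤ B ∧ (deriv (deriv G) z).re ≤ -c) → ∀ m : ℤ, M ≤ |(m : ℝ)| →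
      ∃ z : ℂ, z ∈ Rc (R / 4) (R / 4) ∧ 0 < z.im ∧ ‖z‖ ≤ 16 / |(m : ℝ)| ∧
        Complex.I * m * z / π + Complex.I + deriv G z = 0 ∧ SAD (2 * m) G (R / 4) z ∧
        ‖qq (2 * m) G z - G 0‖ ≤ 16 / |(m : ℝ)| ∧
        ∀ x : ℝ, |x| ≤ R / 3 → (qq (2 * m) G (x + z.im * Complex.I)).re ≤
          (qq (2 * m) G z).re - c / 2 * (x - z.re) ^ 2 := by
  obtain ⟨ρ, hρ⟩ : ∃ ρ : ℝ, ρ = R / 4 := ⟨_, rfl⟩
  have hρ0 : 0 < ρ := by rw [hρ]; positivity
  obtain ⟨C', hC'⟩ : ∃ C' : ℝ, C' = 8 * |B| / ρ ^ 2 + 1 := ⟨_, rfl⟩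
  have hC'1 : 1 ≤ C' := by
    rw [hC']
    have : 0 ≤ 8 * |B| / ρ ^ 2 := by positivity
    linarith
  have hpi := Real.pi_pos
  have hpi4 := Real.pi_lt_four
  have hpi315 : π < 3.15 := Real.pi_lt_d2
  refine ⟨π * (4 * C' + 5 / ρ + (4 * C' + 11) / (c * ρ ^ 2)), by positivity, ?_⟩
  intro G hG hev hb m hm
  have hRρ : 3 * ρ ≤ R := by rw [hρ]; linarith
  have hsub : Rc (3 * ρ) (3 * ρ) ⊆ Rc R R := Pool.Agent.W293.HT.Rc_mono hRρ hRρ
  have hsub2 : Rc (2 * ρ) (2 * ρ) ⊆ Rc R R :=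
    Pool.Agent.W293.HT.Rc_mono (by linarith) (by linarith)
  have gh : Pool.Agent.W293.HT.GH ρ ρ c C' G := by
    refine ⟨hG.mono hsub, fun w hw => hev w (hsub hw), fun w hw => (hb w (hsub2 hw)).2,
      fun w hw => ?_⟩
    have h1 := Pool.Agent.W293.HT.cauchy2 (B := |B|) hρ0 le_rfl (hG.mono hsub)
      (fun z hz => (hb z (hsub hz)).1.trans (le_abs_self B)) hw
    rw [hC']
    linarith
  obtain ⟨A, hA⟩ : ∃ A : ℝ, A = ((2 * m : ℤ) : ℝ) / (2 * π) := ⟨_, rfl⟩
  have hA' : A = m / π := by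
    rw [hA]
    push_cast
    field_simp
  have hAabs : |A| = |(m : ℝ)| / π := by rw [hA', abs_div, abs_of_pos hpi]
  have hAge : 4 * C' + 5 / ρ + (4 * C' + 11) / (c * ρ ^ 2) ≤ |A| := by
    rw [hAabs, le_div_iff₀ hpi]
    linarith
  have hA0 : 0 < |A| := lt_of_lt_of_le (by positivity) hAge
  have hAne : A ≠ 0 := abs_pos.1 hA0
  have hm0 : 0 < |(m : ℝ)| := by
    rw [hAabs] at hA0
    by_contra h
    have h1 : |(m : ℝ)| = 0 := le_antisymm (not_lt.1 h) (abs_nonneg _)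
    rw [h1, zero_div] at hA0
    exact lt_irrefl _ hA0
  have hA1 : 4 * C' ≤ |A| := by
    have : 0 ≤ 5 / ρ + (4 * C' + 11) / (c * ρ ^ 2) := by positivity
    linarith
  have hA2 : 4 / |A| < ρ := by
    have h1 : 5 / ρ ≤ |A| := by
      have : 0 ≤ 4 * C' + (4 * C' + 11) / (c * ρ ^ 2) := by positivity
      linarith
    rw [div_le_iff₀ hρ0] at h1
    rw [div_lt_iff₀ hA0]
    linarith
  have hA3 : (4 * C' + 10) / |A| < c * ρ ^ 2 := by
    have h1 : (4 * C' + 11) / (c * ρ ^ 2) ≤ |A| := by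
      have : 0 ≤ 4 * C' + 5 / ρ := by positivity
      linarith
    rw [div_le_iff₀ (by positivity)] at h1
    rw [div_lt_iff₀ hA0]
    linarith
  obtain ⟨hP1, hP2⟩ := Pool.Agent.W293.HT.phi_bound gh hρ0 le_rfl (by linarith) hA1 hA2
  have hr : 0 < 2 / |A| := by positivity
  obtain ⟨zs, -, hzs⟩ := Pool.Agent.W19.HTFix.task
    (fun w _ => -1 / A + Complex.I / A * deriv G w) (2 / |A|) univ hr isOpen_univ (by
      intro p hp
      have h1 : p.1 ∈ Rc R R := by
        have h2 := hp.1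
        rw [mem_ball_zero_iff] at h2
        have h3 : ‖p.1‖ < R := by
          have : 2 * (2 / |A|) = 4 / |A| := by ring
          rw [this] at h2
          linarith
        exact Pool.Agent.W293.HT.mem_Rc_of_norm le_rfl h3
      have h2 : DifferentiableAt ℂ (deriv G) p.1 :=
        (hG.deriv (Pool.Agent.W293.HT.isOpen_Rc _ _)).differentiableAt
          ((Pool.Agent.W293.HT.isOpen_Rc _ _).mem_nhds h1)
      have h3 : DifferentiableAt ℂ (fun p : ℂ × ℂ => deriv G p.1) p :=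
        DifferentiableAt.comp p h2 differentiableAt_fst
      exact ((h3.const_mul _).const_add _).differentiableWithinAt)
    (fun w hw _ _ => hP1 w hw) (fun w hw w' hw' _ _ => hP2 w hw w' hw')
  obtain ⟨hz1, hz2, -⟩ := hzs 0 (mem_univ _)
  obtain ⟨z, hz⟩ : ∃ z : ℂ, z = zs 0 := ⟨_, rfl⟩
  rw [← hz] at hz1 hz2
  have hcr : Complex.I * A * z + Complex.I + deriv G z = 0 :=
    Pool.Agent.W293.HT.crit_of_fix hAne hz2
  obtain ⟨q1, q2, q3, q4, q5⟩ := Pool.Agent.W293.HT.crit_props gh hρ0 le_rfl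
    (by rw [hρ]; linarith) hc hC'1 (2 * m) A hA hA1 hA2 hA3 z hz1 hcr
  have himpos : 0 < z.im := by
    refine lt_of_lt_of_le ?_ q2
    have : 0 < A ^ 2 := by positivity
    positivity
  have hcr' : Complex.I * m * z / π + Complex.I + deriv G z = 0 := by
    rw [← hcr, hA']
    push_cast
    ring
  have hcr2 : Complex.I * (2 * m : ℤ) * z / (2 * π) + Complex.I + deriv G z = 0 := by
    rw [← hcr, hA]
    push_cast
    ring
  refine ⟨z, by rwa [← hρ], himpos, ?_, hcr', by rwa [← hρ], ?_, ?_⟩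
  · refine hz1.trans ?_
    rw [hAabs, div_div_eq_mul_div]
    apply div_le_div_of_nonneg_right _ hm0.le
    linarith
  · refine q5.trans ?_
    rw [hAabs, div_div_eq_mul_div]
    apply div_le_div_of_nonneg_right _ hm0.le
    linarith
  · have hin : ∀ x : ℝ, |x| ≤ R / 3 → (x : ℂ) + z.im * Complex.I ∈ Rc R R := by
      intro x hx
      refine ⟨?_, ?_⟩
      · have : ((x : ℂ) + z.im * Complex.I).re = x := by simp
        rw [this]
        linarith
      · have : ((x : ℂ) + z.im * Complex.I).im = z.im := by simp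
        rw [this]
        have := q1.2
        linarith
    have hzri : (z.re : ℂ) + z.im * Complex.I = z := Complex.re_add_im z
    intro x hx
    have h1 := Pool.Agent.W293.HT.quad_bound
      (f := fun x : ℝ => (qq (2 * m) G (x + z.im * Complex.I)).re)
      (f' := fun x : ℝ => (Complex.I * (2 * m : ℤ) * ((x : ℂ) + z.im * Complex.I) / (2 * π) +
        Complex.I + deriv G (x + z.im * Complex.I)).re)
      (f'' := fun x : ℝ => (Complex.I * (2 * m : ℤ) / (2 * π) +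
        deriv (deriv G) (x + z.im * Complex.I)).re) (r := R / 3) (c := c) (x0 := z.re)
      (fun x hx => Pool.Agent.W293.HT.hasDerivAt_line (Pool.Agent.W293.HT.hasDerivAt_qq (2 * m)
        (hG.differentiableAt ((Pool.Agent.W293.HT.isOpen_Rc _ _).mem_nhds (hin x hx)))))
      (fun x hx => Pool.Agent.W293.HT.hasDerivAt_line
        (Q := fun w => Complex.I * (2 * m : ℤ) * w / (2 * π) + Complex.I + deriv G w)
        (hasDerivAt_dqq hG (2 * m) (hin x hx)))
      (fun x hx => by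
        show (Complex.I * (2 * m : ℤ) / (2 * π) + deriv (deriv G) (x + z.im * Complex.I)).re ≤ -c
        rw [Complex.add_re, Pool.Agent.W293.HT.re_I_a, zero_add]
        exact (hb _ (hin x hx)).2)
      (by have := q1.1; rw [hρ] at this; linarith) (by
        show (Complex.I * (2 * m : ℤ) * ((z.re : ℂ) + z.im * Complex.I) / (2 * π) + Complex.I +
          deriv G (z.re + z.im * Complex.I)).re = 0
        rw [hzri, hcr2, Complex.zero_re]) hx
    simp only [hzri] at h1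
    exact h1

end Pool.Agent.Y391.CB
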